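import Pool.Agent.N209.KF.Shift
import Pool.Agent.N209.BM.Murre
import Pool.Agent.R905.Div

/-!
# Kimura finiteness and nilpotence
-/

set_option autoImplicit false
set_option linter.unusedSectionVars false
set_option linter.unusedSimpArgs false
set_option backward.isDefEq.respectTransparency false
set_option backward.defeqAttrib.useBackward true

open CategoryTheory Limits MonoidalCategory Pretriangulated Triangulated

namespace Pool.Agent.N209.KF

open Pool.Agent.Y112.KD Pool.Agent.R905 Pool.Agent.Y116.MT Pool.Agent.N209.MT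
  Pool.Agent.N209.BM Pool.Agent.N209.CD
open Pool.Agent.TH829.Kim (InRad isNilpotent_of_inRad)

universe v u w

section Alt

variable {C : Type u} [Category.{v} C] [Preadditive C] [MonoidalCategory C]
  [SymmetricCategory C] [MonoidalPreadditive C] [Linear ℚ C] [MonoidalLinear ℚ C]

/-- The comparison of the two versions of the tensor powers. -/
def ee (Z : C) : ∀ n : ℕ, pw (𝟙_ C) Z n ≅ tp Z n
  | 0 => Iso.refl _
  | n + 1 => whiskerRightIso (ee Z n) Z

lemma ee_succ (Z : C) (n : ℕ) : (ee Z (n + 1)).hom = (ee Z n).hom ▷ Z := rfl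

lemma mv_asym (Z : C) (n : ℕ) : ∀ i : Fin (n + 1),
    mv (𝟙_ C) Z n i ≫ (ee Z (n + 1)).hom ≫ asym (-1) Z (n + 1) =
      ((-1 : ℚ) ^ (n + i.val)) • ((ee Z (n + 1)).hom ≫ asym (-1) Z (n + 1)) := by
  induction n with
  | zero =>
    intro i
    have hi : i = 0 := Fin.ext (by have := i.isLt; simp at this ⊢)
    subst hi
    simp [mv]
  | succ n ih =>
    intro i
    refine Fin.lastCases ?_ (fun j => ?_) i
    · rw [mv_last, Category.id_comp, Fin.val_last, Even.neg_one_pow ⟨n + 1, rfl⟩, one_smul]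
    · rw [mv_castSucc, Category.assoc]
      have h1 : (exch (pw (𝟙_ C) Z n) Z Z).hom ≫ (ee Z (n + 2)).hom =
          (ee Z (n + 2)).hom ≫ sw (tp Z n) Z := by
        have h2 := exch_natural_first (ee Z n).hom Z Z
        have h3 : (exch (tp Z n) Z Z).hom = sw (tp Z n) Z := rfl
        rw [h3] at h2
        exact h2.symm
      have h4 := (swap_asym (η := (-1 : ℚ)) (by norm_num) Z (IsSwap.last n)).1
      have h5 := (absorb (η := (-1 : ℚ)) (by norm_num) Z (n + 1)).1
      rw [reassoc_of% h1, h4, ee_succ, ← h5]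
      rw [Linear.comp_smul, Linear.comp_smul]
      rw [← comp_whiskerRight_assoc, ← comp_whiskerRight_assoc, Category.assoc, ih j,
        MonoidalLinear.smul_whiskerRight, Linear.smul_comp, smul_smul, Fin.val_castSucc,
        comp_whiskerRight_assoc]
      congr 1
      ring

lemma alt_asym (Z : C) (n : ℕ) :
    alt (𝟙_ C) Z n ≫ (ee Z n).hom ≫ asym (-1) Z n =
      (n.factorial : ℚ) • ((ee Z n).hom ≫ asym (-1) Z n) := by
  induction n with
  | zero => simp [alt]
  | succ n ih =>
    have h5 := (absorb (η := (-1 : ℚ)) (by norm_num) Z n).1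
    have h6 : (alt (𝟙_ C) Z n ▷ Z) ≫ (ee Z (n + 1)).hom ≫ asym (-1) Z (n + 1) =
        (n.factorial : ℚ) • ((ee Z (n + 1)).hom ≫ asym (-1) Z (n + 1)) := by
      rw [ee_succ, ← h5, ← comp_whiskerRight_assoc, ← comp_whiskerRight_assoc, Category.assoc, ih,
        MonoidalLinear.smul_whiskerRight, Linear.smul_comp, comp_whiskerRight_assoc]
    rw [alt, Preadditive.sum_comp]
    have h7 : ∀ i : Fin (n + 1), (((-1 : ℤ) ^ (n + i.val)) • (mv (𝟙_ C) Z n i ≫
        (alt (𝟙_ C) Z n ▷ Z))) ≫ (ee Z (n + 1)).hom ≫ asym (-1) Z (n + 1) =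
        (n.factorial : ℚ) • ((ee Z (n + 1)).hom ≫ asym (-1) Z (n + 1)) := by
      intro i
      rw [← Int.cast_smul_eq_zsmul ℚ, Linear.smul_comp, Category.assoc, h6, Linear.comp_smul,
        mv_asym, smul_smul, smul_smul]
      congr 1
      push_cast
      have h8 : ((-1 : ℚ) ^ (n + i.val)) * ((-1 : ℚ) ^ (n + i.val)) = 1 := by
        rw [← pow_add]
        exact Even.neg_one_pow ⟨_, rfl⟩
      linear_combination (n.factorial : ℚ) * h8
    rw [Finset.sum_congr rfl (fun i _ => h7 i), Finset.sum_const, Finset.card_univ,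
      Fintype.card_fin, ← Nat.cast_smul_eq_nsmul ℚ, smul_smul, Nat.factorial_succ]
    push_cast
    rfl

end Alt

section

variable {C : Type u} [Category.{v} C] [Preadditive C] [HasZeroObject C] [HasShift C ℤ]
  [∀ n : ℤ, (shiftFunctor C n).Additive] [Pretriangulated C] [MonoidalCategory C]
  [SymmetricCategory C] [TensorTriangulated C] [MonoidalPreadditive C] [Linear ℚ C]
  [MonoidalLinear ℚ C] [RightRigidCategory C] {E : Type w} [Field E] {R : Realisation C E}
  {W : ObjectProperty C}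

lemma killed_iff_zero {X Y : C} (hX : R.Deg X 0) (f : X ⟶ Y) (h : R.H.map f = 0) :
    Killed R f := by
  intro i
  by_cases hi : i = 0
  · subst hi
    have h1 : R.H.map (f⟦(0 : ℤ)⟧') = R.H.map ((shiftFunctorZero C ℤ).hom.app X) ≫ R.H.map f ≫
        R.H.map ((shiftFunctorZero C ℤ).inv.app Y) := by
      rw [← Functor.map_comp, ← Functor.map_comp]
      congr 1
      have h7 := (shiftFunctorZero C ℤ).hom.naturality f
      rw [← cancel_mono ((shiftFunctorZero C ℤ).hom.app _), h7]
      simp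
    rw [h1, h]
    simp
  · exact (hX i hi).eq_of_src _ _

lemma map_of_killed {X Y : C} {f : X ⟶ Y} (h : Killed R f) : R.H.map f = 0 := by
  have h1 : f = (shiftFunctorZero C ℤ).inv.app X ≫ f⟦(0 : ℤ)⟧' ≫
      (shiftFunctorZero C ℤ).hom.app Y := by
    have h7 := (shiftFunctorZero C ℤ).hom.naturality f
    rw [h7]
    simp
  rw [h1, Functor.map_comp, Functor.map_comp, h 0]
  simp

/-- High exterior powers of an object of degree zero have no cohomology. -/
lemma exists_killed {Z : C} (hZ : R.Deg Z 0) : ∃ n : ℕ, Killed R (asym (-1) Z n) := by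
  refine ⟨Module.finrank E (R.H.obj Z) + 1, ?_⟩
  have h0 := fun n => pw_deg hZ n
  have h1 := kap_iso h0 (Module.finrank E (R.H.obj Z) + 1)
  have h2 : R.H.map (alt (𝟙_ C) Z (Module.finrank E (R.H.obj Z) + 1)) = 0 := by
    rw [← cancel_epi (kap R.H (𝟙_ C) Z (Module.finrank E (R.H.obj Z) + 1)), ← alt_lax,
      alt_vec_zero _ _ _ (Nat.lt_succ_self _), zero_comp, comp_zero]
  generalize Module.finrank E (R.H.obj Z) + 1 = n at h2 ⊢
  apply killed_iff_zero ((h0 n).iso (ee Z n))
  have h3 := congrArg (fun z => R.H.map z) (alt_asym Z n)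
  simp only [Functor.map_comp, h2, zero_comp] at h3
  have hn : (n.factorial : ℚ) ≠ 0 := by exact_mod_cast Nat.factorial_ne_zero n
  have h4 : asym (-1) Z n = (ee Z n).inv ≫ ((n.factorial : ℚ)⁻¹ • 𝟙 _) ≫
      ((n.factorial : ℚ) • ((ee Z n).hom ≫ asym (-1) Z n)) := by
    rw [Linear.smul_comp, Linear.comp_smul, Linear.comp_smul, Category.id_comp, Linear.comp_smul,
      Iso.inv_hom_id_assoc, smul_smul, inv_mul_cancel₀ hn, one_smul]
  rw [h4, Functor.map_comp, Functor.map_comp, ← h3, comp_zero, comp_zero]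

lemma exists_tp_shift (X : C) (a : ℤ) (n : ℕ) : ∃ b : ℤ, Nonempty (tp (X⟦a⟧) n ≅ (tp X n)⟦b⟧) := by
  induction n with
  | zero => exact ⟨0, ⟨((shiftFunctorZero C ℤ).app _).symm⟩⟩
  | succ n ih =>
    obtain ⟨b, ⟨e⟩⟩ := ih
    refine ⟨a + b, ⟨whiskerRightIso e (X⟦a⟧) ≪≫ lShift (tp X n) (X⟦a⟧) b ≪≫
      (shiftFunctor C b).mapIso (rShift (tp X n) X a) ≪≫
      ((shiftFunctorAdd C a b).app (tp X n ⊗ X)).symm⟩⟩

/-- Idempotents without cohomology vanish. -/
lemma idem_zero (hN : NilOn R W) {M : C} (hM : W M) {Y : C} {b : ℤ} (e : Y ≅ M⟦b⟧)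
    {f : Y ⟶ Y} (hf : f ≫ f = f) (hk : Killed R f) : f = 0 := by
  obtain ⟨g, hg⟩ := (shiftFunctor C b).map_surjective (e.inv ≫ f ≫ e.hom)
  have h1 : Killed R g := by
    apply Killed.unshift b
    rw [hg]
    exact (hk.comp_right _).comp_left _
  have h2 : g ≫ g = g := by
    apply (shiftFunctor C b).map_injective
    rw [Functor.map_comp, hg]
    simp only [Category.assoc, Iso.hom_inv_id_assoc]
    rw [reassoc_of% hf]
  obtain ⟨n, hn⟩ := hN M hM g h1
  have h3 : ∀ n : ℕ, iter g (n + 1) = g := by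
    intro n
    induction n with
    | zero => simp [iter]
    | succ n ih => rw [iter, ih, h2]
  have h4 : g = 0 := by
    rw [← h3 n, iter, hn, comp_zero]
  have h5 : f = e.hom ≫ (e.inv ≫ f ≫ e.hom) ≫ e.inv := by simp
  rw [h5, ← hg, h4]
  simp

lemma tp_mem (hW : IsChowClass W) {M : C} (hM : W M) (n : ℕ) : W (tp M n) := by
  induction n with
  | zero => exact hW.unit
  | succ n ih => exact hW.tensor _ _ ih hM

/-- A pure object in one degree has a vanishing power. -/
lemma exists_asym_zero (hW : IsChowClass W) (hN : NilOn R W) {M : C} (hM : W M) {j : ℤ}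
    (hj : R.Deg M j) : (Even j → ∃ n, asym (-1) M n = 0) ∧ (¬ Even j → ∃ n, asym 1 M n = 0) := by
  have h1 : R.Deg (M⟦j⟧) 0 := hj.shift j 0 (by omega)
  obtain ⟨n, hn⟩ := exists_killed h1
  obtain ⟨b, ⟨e⟩⟩ := exists_tp_shift M j n
  have h2 : asym (-1) (M⟦j⟧) n = 0 :=
    idem_zero hN (tp_mem hW hM n) e (asym_idem (by norm_num) _ _) hn
  have h3 := asym_shift M n j h2
  exact ⟨fun h => ⟨n, h3.1 h⟩, fun h => ⟨n, h3.2 h⟩⟩

variable [IsIdempotentComplete C]

/-- Objects with a Chow–Künneth decomposition are Kimura finite, if homologically trivial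
endomorphisms are nilpotent. -/
theorem kimura_of_nil (hW : IsChowClass W) (hK : Kunneth R W) (hN : NilOn R W) {M : C}
    (hM : W M) : IsKimuraFinite M := by
  classical
  obtain ⟨s, p, hp⟩ := exists_ck hK hN hM
  have hpart : ∀ j : ℤ, (Even j → ∃ n, Kl (-1) (p j) n) ∧ (¬ Even j → ∃ n, Kl 1 (p j) n) := by
    intro j
    obtain ⟨L, i, r, hir, hri⟩ := IsIdempotentComplete.idempotents_split M (p j) (hp.idem j)
    have := hW.retract
    have hL : W L := W.prop_of_retract ⟨i, r, hir⟩ hM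
    have hd : R.Deg L j := by
      intro n hn
      have h2 : i ≫ p j = i := by
        rw [← hri, ← Category.assoc, hir, Category.id_comp]
      refine isZero_of_factor i r hir ?_
      rw [← h2, Functor.map_comp, Functor.map_comp, hp.none n j hn, comp_zero]
    obtain ⟨h1, h2⟩ := exists_asym_zero hW hN hL hd
    constructor
    · intro he
      obtain ⟨n, hn⟩ := h1 he
      exact ⟨n, by rw [← hri]; exact Kl.of_retract i r hir hn⟩
    · intro he
      obtain ⟨n, hn⟩ := h2 he
      exact ⟨n, by rw [← hri]; exact Kl.of_retract i r hir hn⟩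
  have hodd : 𝟙 M - ∑ j ∈ s.filter (fun j => Even j), p j =
      ∑ j ∈ s.filter (fun j => ¬ Even j), p j := by
    rw [← hp.tot, ← Finset.sum_filter_add_sum_filter_not s (fun j => Even j)]
    abel
  refine ⟨∑ j ∈ s.filter (fun j => Even j), p j, ?_, ?_, ?_⟩
  · rw [Preadditive.sum_comp]
    refine Finset.sum_congr rfl fun i hi => ?_
    rw [Preadditive.comp_sum, Finset.sum_eq_single i]
    · exact hp.idem i
    · intro j _ hji
      exact hp.orth i j (Ne.symm hji)
    · intro h
      exact absurd hi h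
  · obtain ⟨n, hn⟩ := Kl.sum (η := (-1 : ℚ)) (by norm_num) (s.filter (fun j => Even j)) p
      (fun i hi => (hpart i).1 (Finset.mem_filter.1 hi).2)
    exact ⟨n, hn.powerVanishes (by norm_num)⟩
  · rw [hodd]
    obtain ⟨n, hn⟩ := Kl.sum (η := (1 : ℚ)) (by norm_num) (s.filter (fun j => ¬ Even j)) p
      (fun i hi => (hpart i).2 (Finset.mem_filter.1 hi).2)
    exact ⟨n, hn.powerVanishes (by norm_num)⟩

/-- Homologically trivial endomorphisms of Kimura finite objects are nilpotent (a theorem of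
Kimura). -/
theorem nil_of_kimura (hQ : ∀ e : 𝟙_ C ⟶ 𝟙_ C, ∃ q : ℚ, e = q • 𝟙 _) {M : C}
    (h : IsKimuraFinite M) (f : M ⟶ M) (hf : Killed R f) : ∃ n, iter f n = 0 := by
  have hne : 𝟙 (𝟙_ C) ≠ 0 := fun h0 => not_isZero_unit R ((IsZero.iff_id_eq_zero _).2 h0)
  have hU : UnitQ C := ⟨hQ, hne⟩
  have hz : ∀ g : M ⟶ M, Killed R g → trq hU M (g : End M) = 0 := by
    intro g hg
    have h1 : R.H.map (tr g) = 0 := by
      rw [tr, Functor.map_comp, Functor.map_comp]
      rw [map_of_killed (hg.whiskerRight (Mᘁ : C))]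
      simp
    by_contra hq
    have h2 := trq_spec hU (g : End M)
    apply not_isZero_H_unit R
    rw [IsZero.iff_id_eq_zero, ← CategoryTheory.Functor.map_id]
    have h3 : 𝟙 (𝟙_ C) = ((trq hU M (g : End M))⁻¹ • 𝟙 (𝟙_ C)) ≫ tr g := by
      rw [h2, Linear.smul_comp, Linear.comp_smul, Category.id_comp, smul_smul,
        inv_mul_cancel₀ hq, one_smul]
    rw [h3, Functor.map_comp, h1, comp_zero]
  obtain ⟨E', O, i, r, i', r', h1, h3, h5, ⟨n, hn⟩, m, hm⟩ := (isKimuraFinite_iff M).1 h
  have hr : InRad (trq hU M) (en f) := by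
    intro γ
    apply hz
    exact hf.comp_left _
  have h6 : 1 - en (r ≫ i) = en (r' ≫ i') := by
    have h7 : (1 : End M) = en (r ≫ i) + en (r' ≫ i') := h5.symm
    rw [h7]
    exact add_sub_cancel_left _ _
  have hk1 := killed hU (η := (-1 : ℚ)) (by norm_num) i r n (asym_mono (by norm_num) E' hn)
    (en (r ≫ i)) rfl
  have hk2 := killed hU (η := (1 : ℚ)) (by norm_num) i' r' m (asym_mono (by norm_num) O hm)
    (en (r' ≫ i')) rfl
  rw [← h6] at hk2
  refine (isNilpotent_iff f).2 (isNilpotent_of_inRad (tr := trq hU M) ?_ ?_ hk1 hk2 hr)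
  · intro a b
    apply hU.inj
    rw [← trq_spec, ← trq_spec, End.mul_def, End.mul_def]
    exact tr_cyclic _ _
  · rw [End.mul_def]
    change (r ≫ i) ≫ r ≫ i = r ≫ i
    rw [Category.assoc, reassoc_of% h1]

end

end Pool.Agent.N209.KF
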