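import Pool.Agent.N209.KF.Sum
import Pool.Agent.Y112.KD.Zip
import Pool.Agent.N209.BM.Basic

/-!
# Exterior powers and symmetric powers of shifted objects
-/

set_option autoImplicit false
set_option linter.unusedSectionVars false
set_option linter.unusedSimpArgs false
set_option backward.isDefEq.respectTransparency false
set_option backward.defeqAttrib.useBackward true

open CategoryTheory Limits MonoidalCategory Pretriangulated Triangulated

namespace Pool.Agent.N209.KF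

open Pool.Agent.Y112.KD Pool.Agent.R905 Pool.Agent.Y116.MT Pool.Agent.N209.MT
  Pool.Agent.N209.BM

universe v u w

/-- The tensor product is `ℚ`-linear if it is additive. -/
lemma monoidalLinear {C : Type u} [Category.{v} C] [Preadditive C] [Linear ℚ C]
    [MonoidalCategory C] [MonoidalPreadditive C] : MonoidalLinear ℚ C where
  whiskerLeft_smul X _ _ r f := by
    exact Functor.map_smul (tensorLeft X) r f
  smul_whiskerRight r _ _ f X := by
    exact Functor.map_smul (tensorRight X) r f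

section

variable {C : Type u} [Category.{v} C] [Preadditive C] [MonoidalCategory C]
  [SymmetricCategory C] [MonoidalPreadditive C] [Linear ℚ C] [MonoidalLinear ℚ C]

/-- The exchanges act as `-1` on the tensor powers of an odd object. -/
lemma swap_odd {L : C} (hL : (β_ L L).hom = -𝟙 _) {n : ℕ} {s : tp L n ⟶ tp L n}
    (hs : IsSwap L n s) : s = -𝟙 _ := by
  induction hs with
  | last n =>
    simp only [sw, hL, wl_neg, MonoidalCategory.whiskerLeft_id,
      Preadditive.neg_comp, Preadditive.comp_neg, Category.id_comp, Iso.hom_inv_id]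
  | lift n s _ ih => rw [ih, wr_neg, id_whiskerRight]

lemma asym_odd {L : C} (hL : (β_ L L).hom = -𝟙 _) (n : ℕ) : asym (-1) L n = 𝟙 _ := by
  have h1 := asym_comp (η := (-1 : ℚ)) (by norm_num) (X := L) (n := n) (𝟙 _)
    (fun s hs => by
      rw [swap_odd hL hs, Category.comp_id]
      simp)
  simpa using h1

lemma zero_of_tensor {L : C} (hf : ∀ (X Y : C) (f : X ⟶ Y), f ▷ L = 0 → f = 0) {X Y : C}
    (f : X ⟶ Y) (n : ℕ) (h : f ▷ tp L n = 0) : f = 0 := by
  induction n with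
  | zero =>
    have h4 : f = (ρ_ X).inv ≫ f ▷ 𝟙_ C ≫ (ρ_ Y).hom := by simp
    rw [h4]
    have h5 : f ▷ 𝟙_ C = 0 := h
    rw [h5]
    simp
  | succ n ih =>
    apply ih
    apply hf
    have h1 : (f ▷ tp L n) ▷ L = (α_ _ _ _).hom ≫ (f ▷ (tp L (n + 1))) ≫ (α_ _ _ _).inv := by
      simp
    rw [h1, h]
    simp

/-- The `n`-th power of opposite parity of `X` vanishes if the one of `X ⊗ L` vanishes, for an odd
invertible object `L`. -/
theorem asym_of_tensor {L : C} (hL : (β_ L L).hom = -𝟙 _)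
    (hf : ∀ (X Y : C) (f : X ⟶ Y), f ▷ L = 0 → f = 0) {η : ℚ} (hη : η * η = 1) (X : C) (n : ℕ)
    (h : asym η (X ⊗ L) n = 0) : asym (-η) X n = 0 := by
  have h2 := zip_kill (η := -η) (θ := (-1 : ℚ)) (by linear_combination hη) (by norm_num) X
    L n (by
      have h3 : -η * -1 = η := by ring
      rw [h3]
      exact h)
  rw [asym_odd hL] at h2
  apply zero_of_tensor hf _ n
  simpa using h2

lemma asym_iso {η : ℚ} {X Y : C} (e : X ≅ Y) {n : ℕ} (h : asym η X n = 0) :
    asym η Y n = 0 := kills_retract e.inv e.hom e.inv_hom_id h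

/-- The inverse of an odd invertible object is odd. -/
lemma odd_inverse {L L' : C} (e : L ⊗ L' ≅ 𝟙_ C) (hL : (β_ L L).hom = -𝟙 _)
    (hf : ∀ (X Y : C) (f : X ⟶ Y), L ◁ f = 0 → f = 0) : (β_ L' L').hom = -𝟙 _ := by
  have h1 : (β_ (L ⊗ L') (L ⊗ L')).hom = 𝟙 _ := by
    have h2 := BraidedCategory.braiding_naturality e.hom e.hom
    have h3 : (β_ (𝟙_ C) (𝟙_ C)).hom = 𝟙 _ := by
      rw [braiding_tensorUnit_left, unitors_equal, Iso.hom_inv_id]
    rw [h3, Category.comp_id] at h2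
    rw [← cancel_mono (e.hom ⊗ₘ e.hom), ← h2, Category.id_comp]
  have h2 := braid_mu L L'
  rw [h1, Category.id_comp, hL] at h2
  have h3 : (-𝟙 (L ⊗ L)) ⊗ₘ (β_ L' L').hom = 𝟙 _ := by
    have h4 := congrArg (fun z => tensorδ L L' L L' ≫ z) h2
    simp only [tensorδ_tensorμ, tensorδ_tensorμ_assoc] at h4
    exact h4.symm
  have h4 : (L ⊗ L) ◁ ((β_ L' L').hom + 𝟙 _) = 0 := by
    have h5 : (-𝟙 (L ⊗ L)) ⊗ₘ (β_ L' L').hom = -((L ⊗ L) ◁ (β_ L' L').hom) := by
      simp [MonoidalCategory.tensorHom_def, wr_neg]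
    rw [h5] at h3
    rw [MonoidalPreadditive.whiskerLeft_add, MonoidalCategory.whiskerLeft_id, ← h3]
    abel_nf
  have h6 : (β_ L' L').hom + 𝟙 _ = 0 := by
    apply hf
    apply hf
    have h7 : L ◁ L ◁ ((β_ L' L').hom + 𝟙 _) = (α_ _ _ _).inv ≫ ((L ⊗ L) ◁
        ((β_ L' L').hom + 𝟙 _)) ≫ (α_ _ _ _).hom := by
      simp
    rw [h7, h4]
    simp
  exact eq_neg_of_add_eq_zero_left h6

end

section

variable {C : Type u} [Category.{v} C] [Preadditive C] [HasZeroObject C] [HasShift C ℤ]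
  [∀ n : ℤ, (shiftFunctor C n).Additive] [Pretriangulated C] [MonoidalCategory C]
  [SymmetricCategory C] [TensorTriangulated C] [MonoidalPreadditive C] [Linear ℚ C]
  [MonoidalLinear ℚ C]

lemma zero_of_whisker_unit (a : ℤ) {X Y : C} (f : X ⟶ Y) (h : f ▷ ((𝟙_ C)⟦a⟧) = 0) :
    f = 0 := by
  have h1 := rShift_natural_left f (𝟙_ C) a
  rw [h, zero_comp] at h1
  have h2 : (f ▷ 𝟙_ C)⟦a⟧' = 0 := by
    rw [← cancel_epi (rShift X (𝟙_ C) a).hom, comp_zero]
    exact h1.symm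
  have h3 : f ▷ 𝟙_ C = 0 := by
    apply (shiftFunctor C a).map_injective
    rw [h2, Functor.map_zero]
  have h4 : f = (ρ_ X).inv ≫ f ▷ 𝟙_ C ≫ (ρ_ Y).hom := by simp
  rw [h4, h3]
  simp

lemma sign_neg : (β_ ((𝟙_ C)⟦(-1 : ℤ)⟧) ((𝟙_ C)⟦(-1 : ℤ)⟧)).hom = -𝟙 _ := by
  refine odd_inverse (L := (𝟙_ C)⟦(1 : ℤ)⟧) (shiftTensorIso (𝟙_ C) (𝟙_ C) 1 ≪≫ λ_ _)
    TensorTriangulated.sign ?_
  intro X Y f h
  apply zero_of_whisker_unit 1
  have h1 := BraidedCategory.braiding_naturality_left f ((𝟙_ C)⟦(1 : ℤ)⟧)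
  rw [h, comp_zero] at h1
  rw [← cancel_mono (β_ _ _).hom, h1, zero_comp]

/-- The `n`-th power of opposite parity of `X` vanishes if the one of `X⟦±1⟧` vanishes. -/
theorem asym_of_shift {a : ℤ} (ha : a = 1 ∨ a = -1) {η : ℚ} (hη : η * η = 1) (X : C) (n : ℕ)
    (h : asym η (X⟦a⟧) n = 0) : asym (-η) X n = 0 := by
  have e : X ⊗ (𝟙_ C)⟦a⟧ ≅ X⟦a⟧ :=
    rShift X (𝟙_ C) a ≪≫ (shiftFunctor C a).mapIso (ρ_ X)
  refine asym_of_tensor (L := (𝟙_ C)⟦a⟧) ?_ (fun X Y f => zero_of_whisker_unit a f) hη X n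
    (asym_iso e.symm h)
  rcases ha with rfl | rfl
  · exact TensorTriangulated.sign
  · exact sign_neg

/-- The vanishing of exterior powers of `X⟦a⟧` and of the powers of `X`. -/
theorem asym_shift_nat {c : ℤ} (hc : c = 1 ∨ c = -1) (X : C) (n : ℕ) (a : ℕ) :
    ∀ η : ℚ, η * η = 1 → asym η (X⟦c * (a : ℤ)⟧) n = 0 → asym ((-1) ^ a * η) X n = 0 := by
  induction a with
  | zero =>
    intro η _ h
    rw [pow_zero, one_mul]
    refine asym_iso ((shiftFunctorZero C ℤ).app X) ?_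
    have h0 : c * ((0 : ℕ) : ℤ) = 0 := by simp
    rw [h0] at h
    exact h
  | succ a ih =>
    intro η hη h
    have h1 := asym_of_shift hc hη (X⟦c * (a : ℤ)⟧) n (asym_iso
      ((shiftFunctorAdd' C (c * (a : ℤ)) c (c * ((a + 1 : ℕ) : ℤ)) (by push_cast; ring)).app X) h)
    have h2 := ih (-η) (by linear_combination hη) h1
    rw [pow_succ]
    have h3 : (-1 : ℚ) ^ a * -1 * η = (-1) ^ a * -η := by ring
    rw [h3]
    exact h2

theorem asym_shift (X : C) (n : ℕ) (j : ℤ) (h : asym (-1) (X⟦j⟧) n = 0) :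
    (Even j → asym (-1) X n = 0) ∧ (¬ Even j → asym 1 X n = 0) := by
  obtain ⟨c, a, hc, hj⟩ : ∃ (c : ℤ) (a : ℕ), (c = 1 ∨ c = -1) ∧ j = c * (a : ℤ) := by
    rcases Int.le_total 0 j with h | h
    · exact ⟨1, j.toNat, Or.inl rfl, by omega⟩
    · exact ⟨-1, (-j).toNat, Or.inr rfl, by omega⟩
  rw [hj] at h
  have h1 := asym_shift_nat hc X n a (-1) (by norm_num) h
  have h2 : Even j ↔ Even a := by
    rw [hj]
    rcases hc with rfl | rfl
    · simp [Int.even_coe_nat]
    · simp [Int.even_coe_nat]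
  constructor
  · intro he
    rw [(h2.1 he).neg_one_pow, one_mul] at h1
    exact h1
  · intro he
    have h3 : Odd a := by
      rw [← Nat.not_even_iff_odd]
      exact fun h => he (h2.2 h)
    rw [h3.neg_one_pow] at h1
    have h4 : (-1 : ℚ) * -1 = 1 := by norm_num
    rw [h4] at h1
    exact h1

end

end Pool.Agent.N209.KF
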