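import Pool.Agent.Y112.KD.Contr
import Pool.Agent.R905.Defs

/-!
# Direct sums of even (or of odd) objects
-/

set_option autoImplicit false
set_option linter.unusedSectionVars false

open CategoryTheory Limits MonoidalCategory

namespace Pool.Agent.N209.KF

open Pool.Agent.Y112.KD Pool.Agent.R905

universe v u

section Comb

/-- Permutations which bring the `true` entries to the end. -/
lemma exists_perm {N n k : ℕ} (hN : N = n + k) (w : Fin N → Bool)
    (h : n ≤ (Finset.univ.filter (fun j => w j = true)).card) :
    ∃ σ : Equiv.Perm (Fin N), ∀ j : Fin N, k ≤ j.val → w (σ j) = true := by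
  refine ⟨Tuple.sort w, fun j hj => ?_⟩
  have hm := Tuple.monotone_sort w
  by_contra hw
  have h1 : ∀ i : Fin N, i ≤ j → w (Tuple.sort w i) = false := by
    intro i hi
    have h2 := hm hi
    simp only [Function.comp_apply] at h2
    cases h3 : w (Tuple.sort w i) with
    | false => rfl
    | true =>
      exfalso
      apply hw
      rw [h3] at h2
      exact top_le_iff.mp h2
  have h2 : (Finset.univ.filter (fun i : Fin N => w (Tuple.sort w i) = true)).card =
      (Finset.univ.filter (fun j => w j = true)).card := by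
    apply Finset.card_bij (fun i _ => Tuple.sort w i)
    · intro i hi
      simpa using hi
    · intro a _ b _ hab
      exact (Tuple.sort w).injective hab
    · intro b hb
      refine ⟨(Tuple.sort w).symm b, ?_, by simp⟩
      simpa using hb
  have h3 : Finset.univ.filter (fun i : Fin N => w (Tuple.sort w i) = true) ⊆
      Finset.Ioi j := by
    intro i hi
    rw [Finset.mem_filter] at hi
    rw [Finset.mem_Ioi]
    by_contra hij
    rw [not_lt] at hij
    have := h1 i hij
    rw [hi.2] at this
    exact absurd this (by simp)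
  have h4 := Finset.card_le_card h3
  rw [h2, Fin.card_Ioi] at h4
  omega

end Comb

variable {C : Type u} [Category.{v} C] [MonoidalCategory C] [SymmetricCategory C]
  [Preadditive C] [Linear ℚ C] [MonoidalPreadditive C] [MonoidalLinear ℚ C]

/-- The (anti)symmetrizer kills the tensor products of `n` endomorphisms with values in `e`. -/
def Kl (η : ℚ) {X : C} (e : X ⟶ X) (n : ℕ) : Prop :=
  ∀ p : Fin n → (X ⟶ X), (∀ j, ∃ x : X ⟶ X, p j = x ≫ e) → Dn n p ≫ asym η X n = 0

lemma Kl.block {η : ℚ} (hη : η * η = 1) {X : C} {e : X ⟶ X} {n : ℕ} (h : Kl η e n) (k : ℕ) :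
    ∀ {N : ℕ} (_ : N = n + k) (p : Fin N → (X ⟶ X)),
      (∀ j : Fin N, k ≤ j.val → ∃ x : X ⟶ X, p j = x ≫ e) → Dn N p ≫ asym η X N = 0 := by
  induction k with
  | zero =>
    intro N hN p hp
    subst hN
    exact h p (fun j => hp j (Nat.zero_le _))
  | succ k ih =>
    intro N hN p hp
    subst hN
    have h1 := ih (N := n + k) rfl (fun i => p i.succ) (fun j hj => hp j.succ (by
      simpa using hj))
    have h2 := (absorb hη X (n + k)).1
    change (Dn (n + k) (fun i => p i.succ) ⊗ₘ p 0) ≫ asym η X (n + k + 1) = 0
    rw [← h2, ← Category.assoc, ← tensorHom_id, tensorHom_comp_tensorHom, h1]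
    simp [MonoidalCategory.tensorHom_def]

lemma IsSwap.sq {X : C} {n : ℕ} {s : tp X n ⟶ tp X n} (hs : IsSwap X n s) : s ≫ s = 𝟙 _ := by
  induction hs with
  | last n => exact sw_sw _ _
  | lift n s _ ih => rw [← comp_whiskerRight, ih, id_whiskerRight]

/-- The exchange of two neighbouring endomorphisms. -/
lemma exists_swap {X : C} (n : ℕ) (i : Fin n) : ∃ s : tp X (n + 1) ⟶ tp X (n + 1),
    IsSwap X (n + 1) s ∧ ∀ p : Fin (n + 1) → (X ⟶ X),
      s ≫ Dn (n + 1) (p ∘ Equiv.swap i.castSucc i.succ) = Dn (n + 1) p ≫ s := by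
  induction n with
  | zero => exact i.elim0
  | succ m ih =>
    refine Fin.cases ?_ (fun i => ?_) i
    · refine ⟨sw (tp X m) X, IsSwap.last m, fun p => ?_⟩
      have h1 : Dn (m + 2) p = ((Dn m (fun j => p j.succ.succ)) ⊗ₘ p 1) ⊗ₘ p 0 := rfl
      have h2 : Dn (m + 2) (p ∘ Equiv.swap (Fin.castSucc (0 : Fin (m + 1))) (Fin.succ 0)) =
          ((Dn m (fun j => p j.succ.succ)) ⊗ₘ p 0) ⊗ₘ p 1 := by
        change ((Dn m (fun j => p (Equiv.swap _ _ j.succ.succ))) ⊗ₘ
          p (Equiv.swap _ _ 1)) ⊗ₘ p (Equiv.swap _ _ 0) = _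
        have e1 : Equiv.swap (Fin.castSucc (0 : Fin (m + 1))) (Fin.succ 0) 0 = 1 :=
          Equiv.swap_apply_left _ _
        have e2 : Equiv.swap (Fin.castSucc (0 : Fin (m + 1))) (Fin.succ 0) 1 = 0 :=
          Equiv.swap_apply_right _ _
        have e3 : ∀ j : Fin m, Equiv.swap (Fin.castSucc (0 : Fin (m + 1))) (Fin.succ 0)
            j.succ.succ = j.succ.succ := by
          intro j
          apply Equiv.swap_apply_of_ne_of_ne
          · exact Fin.succ_ne_zero _
          · intro h
            exact Fin.succ_ne_zero j (Fin.succ_injective _ h)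
        rw [e1, e2]
        simp only [e3]
      rw [h1, h2]
      exact (sw_nat _ _ _).symm
    · obtain ⟨s, hs, h⟩ := ih i
      refine ⟨s ▷ X, IsSwap.lift _ _ hs, fun p => ?_⟩
      have h1 : Dn (m + 2) (p ∘ Equiv.swap (Fin.castSucc i.succ) (Fin.succ i.succ)) =
          Dn (m + 1) ((fun j => p j.succ) ∘ Equiv.swap i.castSucc i.succ) ⊗ₘ p 0 := by
        change Dn (m + 1) (fun j => p (Equiv.swap _ _ j.succ)) ⊗ₘ p (Equiv.swap _ _ 0) = _
        have e1 : Equiv.swap (Fin.castSucc i.succ) (Fin.succ i.succ) 0 = 0 := by
          apply Equiv.swap_apply_of_ne_of_ne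
          · rw [← Fin.succ_castSucc]
            exact (Fin.succ_ne_zero _).symm
          · exact (Fin.succ_ne_zero _).symm
        have e2 : ∀ j : Fin (m + 1), Equiv.swap (Fin.castSucc i.succ) (Fin.succ i.succ) j.succ =
            (Equiv.swap i.castSucc i.succ j).succ := by
          intro j
          rw [← Fin.succ_castSucc]
          by_cases h1 : j = i.castSucc
          · subst h1
            rw [Equiv.swap_apply_left, Equiv.swap_apply_left]
          · by_cases h2 : j = i.succ
            · subst h2
              rw [Equiv.swap_apply_right, Equiv.swap_apply_right]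
            · rw [Equiv.swap_apply_of_ne_of_ne h1 h2, Equiv.swap_apply_of_ne_of_ne]
              · exact fun h => h1 (Fin.succ_injective _ h)
              · exact fun h => h2 (Fin.succ_injective _ h)
        rw [e1]
        simp only [e2]
        rfl
      have h2 : Dn (m + 1 + 1) p = Dn (m + 1) (fun j => p j.succ) ⊗ₘ p 0 := rfl
      rw [h1, h2, ← tensorHom_id, tensorHom_comp_tensorHom, tensorHom_comp_tensorHom, h,
        Category.id_comp, Category.comp_id]

/-- The vanishing does not depend on the order of the endomorphisms. -/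
lemma Dn_perm {η : ℚ} (hη : η * η = 1) {X : C} {N : ℕ} (σ : Equiv.Perm (Fin N)) :
    ∀ p : Fin N → (X ⟶ X), Dn N p ≫ asym η X N = 0 → Dn N (p ∘ σ) ≫ asym η X N = 0 := by
  rcases N with - | N
  · intro p hp
    have h1 : p ∘ σ = p := Subsingleton.elim _ _
    rw [h1]
    exact hp
  · have h1 : σ ∈ Submonoid.closure (Set.range fun i : Fin N => Equiv.swap i.castSucc i.succ) := by
      rw [Equiv.Perm.mclosure_swap_castSucc_succ]
      trivial
    induction h1 using Submonoid.closure_induction with
    | mem τ hτ =>
      obtain ⟨i, rfl⟩ := hτ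
      intro p hp
      obtain ⟨s, hs, h⟩ := exists_swap (X := X) N i
      have h2 : s ≫ Dn (N + 1) (p ∘ Equiv.swap i.castSucc i.succ) ≫ asym η X (N + 1) = 0 := by
        rw [← Category.assoc, h, Category.assoc, (swap_asym hη X hs).1, Linear.comp_smul, hp,
          smul_zero]
      have h3 := congrArg (fun z => s ≫ z) h2
      simp only [comp_zero] at h3
      rw [← Category.assoc, IsSwap.sq hs, Category.id_comp] at h3
      exact h3
    | one =>
      intro p hp
      exact hp
    | mul a b _ _ ha hb =>
      intro p hp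
      have h2 := hb (p ∘ a) (ha p hp)
      exact h2

/-- Additivity in one variable. -/
lemma Dn_update_add {X : C} (n : ℕ) : ∀ (p : Fin n → (X ⟶ X)) (i : Fin n) (x y : X ⟶ X),
    Dn n (Function.update p i (x + y)) = Dn n (Function.update p i x) +
      Dn n (Function.update p i y) := by
  induction n with
  | zero => intro p i; exact i.elim0
  | succ n ih =>
    intro p i x y
    refine Fin.cases ?_ (fun i => ?_) i
    · have h1 : ∀ z : X ⟶ X, Dn (n + 1) (Function.update p 0 z) =
          Dn n (fun j => p j.succ) ⊗ₘ z := by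
        intro z
        rw [Dn_succ, Function.update_self]
        congr 2
      rw [h1, h1, h1]
      simp only [MonoidalCategory.tensorHom_def, MonoidalPreadditive.whiskerLeft_add,
        Preadditive.comp_add]
    · have h1 : ∀ z : X ⟶ X, Dn (n + 1) (Function.update p i.succ z) =
          Dn n (Function.update (fun j => p j.succ) i z) ⊗ₘ p 0 := by
        intro z
        have h2 : (fun j : Fin n => Function.update p i.succ z j.succ) =
            Function.update (fun j => p j.succ) i z := by
          funext j
          by_cases hj : j = i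
          · subst hj
            simp
          · rw [Function.update_of_ne (by simpa using hj), Function.update_of_ne hj]
        rw [Dn_succ, h2, Function.update_of_ne (Fin.succ_ne_zero i).symm]
      rw [h1, h1, h1, ih]
      simp only [MonoidalCategory.tensorHom_def, MonoidalPreadditive.add_whiskerRight,
        Preadditive.add_comp]

/-- Expansion of a tensor product of sums. -/
lemma Dn_expand {η : ℚ} {X : C} {N : ℕ} (e₁ e₂ : X ⟶ X) (x : Fin N → (X ⟶ X))
    (h : ∀ w : Fin N → Bool, Dn N (fun j => x j ≫ (if w j then e₁ else e₂)) ≫ asym η X N = 0)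
    (s : Finset (Fin N)) : ∀ w : Fin N → Bool,
    Dn N (fun j => if j ∈ s then x j ≫ (e₁ + e₂) else x j ≫ (if w j then e₁ else e₂)) ≫
      asym η X N = 0 := by
  classical
  induction s using Finset.induction_on with
  | empty =>
    intro w
    simpa using h w
  | insert a s ha ih =>
    intro w
    have h1 : ∀ (b : Bool), (fun j => if j ∈ s then x j ≫ (e₁ + e₂) else
        x j ≫ (if (Function.update w a b) j then e₁ else e₂)) =
        Function.update (fun j => if j ∈ insert a s then x j ≫ (e₁ + e₂) else
          x j ≫ (if w j then e₁ else e₂)) a (x a ≫ (if b then e₁ else e₂)) := by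
      intro b
      funext j
      by_cases hj : j = a
      · subst hj
        rw [Function.update_self, if_neg ha, Function.update_self]
      · rw [Function.update_of_ne hj, Function.update_of_ne hj]
        simp [Finset.mem_insert, hj]
    have h2 : (fun j => if j ∈ insert a s then x j ≫ (e₁ + e₂) else
          x j ≫ (if w j then e₁ else e₂)) =
        Function.update (fun j => if j ∈ insert a s then x j ≫ (e₁ + e₂) else
          x j ≫ (if w j then e₁ else e₂)) a (x a ≫ e₁ + x a ≫ e₂) := by
      funext j
      by_cases hj : j = a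
      · subst hj
        rw [Function.update_self, if_pos (Finset.mem_insert_self _ _), Preadditive.comp_add]
      · rw [Function.update_of_ne hj]
    rw [h2, Dn_update_add, Preadditive.add_comp]
    have h3 := ih (Function.update w a true)
    have h4 := ih (Function.update w a false)
    rw [h1] at h3 h4
    simp only [if_true, Bool.false_eq_true, if_false] at h3 h4
    rw [h3, h4, add_zero]

/-- The sum of two even (or of two odd) endomorphisms. -/
theorem Kl.add {η : ℚ} (hη : η * η = 1) {X : C} {e₁ e₂ : X ⟶ X} {n m : ℕ} (h₁ : Kl η e₁ n)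
    (h₂ : Kl η e₂ m) : Kl η (e₁ + e₂) (n + m) := by
  intro p hp
  choose x hx using hp
  have key := Dn_expand (η := η) (N := n + m) e₁ e₂ x ?_ Finset.univ (fun _ => true)
  · have h1 : p = fun j => if j ∈ (Finset.univ : Finset (Fin (n + m))) then x j ≫ (e₁ + e₂) else
        x j ≫ (if (fun _ : Fin (n + m) => true) j then e₁ else e₂) := by
      funext j
      rw [if_pos (Finset.mem_univ _), hx]
    rw [h1]
    exact key
  · intro w
    have hcard : (Finset.univ.filter (fun j => w j = true)).card +
        (Finset.univ.filter (fun j => ¬ (w j = true))).card = n + m := by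
      rw [Finset.card_filter_add_card_filter_not, Finset.card_univ, Fintype.card_fin]
    by_cases hn : n ≤ (Finset.univ.filter (fun j => w j = true)).card
    · obtain ⟨σ, hσ⟩ := exists_perm (N := n + m) (n := n) (k := m) rfl w hn
      have h3 := h₁.block hη m (N := n + m) rfl
        ((fun j => x j ≫ (if w j then e₁ else e₂)) ∘ σ) (fun j hj => ⟨x (σ j), by
          simp only [Function.comp_apply]
          rw [hσ j hj]
          simp⟩)
      have h4 := Dn_perm hη σ⁻¹ _ h3
      have h5 : (((fun j => x j ≫ (if w j then e₁ else e₂)) ∘ σ) ∘ ⇑σ⁻¹) =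
          fun j => x j ≫ (if w j then e₁ else e₂) := by
        funext j
        simp
      rwa [h5] at h4
    · have hm : m ≤ (Finset.univ.filter (fun j => (!(w j)) = true)).card := by
        have h6 : (Finset.univ.filter (fun j => (!(w j)) = true)) =
            (Finset.univ.filter (fun j => ¬ (w j = true))) := by
          ext j
          simp
        rw [h6]
        omega
      obtain ⟨σ, hσ⟩ := exists_perm (N := n + m) (n := m) (k := n) (Nat.add_comm _ _)
        (fun j => !(w j)) hm
      have h3 := h₂.block hη n (N := n + m) (Nat.add_comm _ _)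
        ((fun j => x j ≫ (if w j then e₁ else e₂)) ∘ σ) (fun j hj => ⟨x (σ j), by
          simp only [Function.comp_apply]
          have h7 := hσ j hj
          simp only [Bool.not_eq_eq_eq_not, Bool.not_true] at h7
          rw [h7]
          simp⟩)
      have h4 := Dn_perm hη σ⁻¹ _ h3
      have h5 : (((fun j => x j ≫ (if w j then e₁ else e₂)) ∘ σ) ∘ ⇑σ⁻¹) =
          fun j => x j ≫ (if w j then e₁ else e₂) := by
        funext j
        simp
      rwa [h5] at h4

lemma Kl.zero {η : ℚ} (X : C) : Kl η (0 : X ⟶ X) 1 := by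
  intro p hp
  obtain ⟨x, hx⟩ := hp 0
  rw [Dn_succ, hx]
  simp [MonoidalCategory.tensorHom_def]

/-- Finite sums. -/
theorem Kl.sum {η : ℚ} (hη : η * η = 1) {X : C} {ι : Type*} (s : Finset ι) (e : ι → (X ⟶ X))
    (h : ∀ i ∈ s, ∃ n, Kl η (e i) n) : ∃ n, Kl η (∑ i ∈ s, e i) n := by
  classical
  induction s using Finset.induction_on with
  | empty => exact ⟨1, by simpa using Kl.zero X⟩
  | insert a s ha ih =>
    obtain ⟨n, hn⟩ := h a (Finset.mem_insert_self _ _)
    obtain ⟨m, hm⟩ := ih (fun i hi => h i (Finset.mem_insert_of_mem hi))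
    rw [Finset.sum_insert ha]
    exact ⟨n + m, hn.add hη hm⟩

lemma Kl.of_retract {η : ℚ} {X E : C} (i : E ⟶ X) (r : X ⟶ E) (hir : i ≫ r = 𝟙 E) {n : ℕ}
    (hE : asym η E n = 0) : Kl η (r ≫ i) n := by
  intro p hp
  apply Dn_asym_zero i r n hE
  intro j
  obtain ⟨x, hx⟩ := hp j
  rw [hx]
  simp only [Category.assoc]
  rw [reassoc_of% hir]

lemma tpm_eq_Dn {X : C} (e : X ⟶ X) (n : ℕ) : tpm e n = Dn n (fun _ => e) := by
  induction n with
  | zero => rfl
  | succ n ih =>
    have e1 : tpm e (n + 1) = tpm e n ⊗ₘ e := rfl
    rw [e1, ih, Dn_succ]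

lemma Kl.powerVanishes {η : ℚ} (hη : η * η = 1) {X : C} {e : X ⟶ X} {n : ℕ} (h : Kl η e n) :
    PowerVanishes η e n := by
  intro Z g hg
  rw [← asym_comp hη g hg, tpm_eq_Dn, ← Category.assoc, h _ (fun _ => ⟨𝟙 _, by simp⟩), zero_comp]

end Pool.Agent.N209.KF
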